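import Pool.Agent.T2h14.FD.Stm

/-!
Task DES: descent of the Frobenius.
-/

set_option autoImplicit false

open MvPowerSeries IsLocalRing
open scoped TensorProduct

namespace Pool.Agent.T3h91.FD

open Pool.Agent.T2h14.FD

/-- the ring `B'`, to be considered as an algebra by the Frobenius -/
def Wt (_ : ℕ) (B' : Type) : Type := B'

instance wtRing (p : ℕ) (B' : Type) [CommRing B'] : CommRing (Wt p B') := inferInstanceAs (CommRing B')

/-- the identity -/
def toW (p : ℕ) (B' : Type) [CommRing B'] : B' ≃+* Wt p B' := RingEquiv.refl B'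

noncomputable instance wtAlg (p : ℕ) [hp : Fact p.Prime] (B B' : Type) [CommRing B] [CommRing B'] [CharP B' p]
    [Algebra B B'] : Algebra B (Wt p B') :=
  (((toW p B' : B' →+* Wt p B').comp (frobenius B' p)).comp (algebraMap B B')).toAlgebra

section

variable {p : ℕ} [hp : Fact p.Prime] {B B' : Type} [CommRing B] [CommRing B'] [CharP B' p] [Algebra B B']

theorem wt_map (b : B) : algebraMap B (Wt p B') b = toW p B' (algebraMap B B' b ^ p) := rfl

/-- the Frobenius as a homomorphism of algebras -/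
noncomputable def frA : B' →ₐ[B] Wt p B' :=
  { ((toW p B' : B' →+* Wt p B').comp (frobenius B' p)) with commutes' := fun _ => rfl }

theorem frA_apply (y : B') : (frA (B := B) y : Wt p B') = toW p B' (y ^ p) := rfl

/-- the algebra generated by the `x i` -/
noncomputable def Cx {n : ℕ} (p : ℕ) [hp : Fact p.Prime] (B' : Type) [CommRing B'] [CharP B' p] [Algebra B B']
    (x : Fin n → B) : Subalgebra B (Wt p B') :=
  Algebra.adjoin B (Set.range fun i => toW p B' (algebraMap B B' (x i)))

/-- the generators -/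
noncomputable def xi {n : ℕ} (x : Fin n → B) (i : Fin n) : Cx p B' x :=
  ⟨toW p B' (algebraMap B B' (x i)), Algebra.subset_adjoin ⟨i, rfl⟩⟩

/-- the monomials -/
noncomputable def mo {n : ℕ} (x : Fin n → B) (m : Fin n → ℕ) : Cx p B' x := ∏ i, xi x i ^ m i

theorem mo_val {n : ℕ} (x : Fin n → B) (m : Fin n → ℕ) :
    ((mo x m : Cx p B' x) : Wt p B') = toW p B' (∏ i, algebraMap B B' (x i) ^ m i) := by
  unfold mo
  rw [map_prod]
  simp only [SubmonoidClass.coe_finsetProd, SubmonoidClass.coe_pow, map_pow]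
  rfl

/-- the monomials in the ring -/
noncomputable def mW {n : ℕ} (p : ℕ) (B' : Type) [CommRing B'] [Algebra B B']
    (x : Fin n → B) (m : Fin n → ℕ) : Wt p B' :=
  toW p B' (∏ i, algebraMap B B' (x i) ^ m i)

theorem mW_add {n : ℕ} (x : Fin n → B) (m m' : Fin n → ℕ) :
    mW p B' x m * mW p B' x m' = mW p B' x (m + m') := by
  unfold mW
  rw [← map_mul, ← Finset.prod_mul_distrib]
  congr 1
  exact Finset.prod_congr rfl fun i _ => (pow_add _ _ _).symm

theorem mW_red {n : ℕ} (x : Fin n → B) (m : Fin n → ℕ) :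
    mW p B' x m = (∏ i, x i ^ (m i / p)) • mW p B' x (fun i => m i % p) := by
  rw [Algebra.smul_def, wt_map]
  unfold mW
  rw [← map_mul, map_prod (algebraMap B B'), ← Finset.prod_pow, ← Finset.prod_mul_distrib]
  congr 1
  refine Finset.prod_congr rfl fun i _ => ?_
  rw [map_pow, ← pow_mul, ← pow_add, mul_comm (m i / p) p, Nat.div_add_mod]

/-- the monomials with exponents less than `p` generate -/
theorem Cx_gen {n : ℕ} (x : Fin n → B) (c : Cx p B' x) :
    ∃ s : (Fin n → Fin p) → B, c = ∑ β, s β • mo x fun i => (β i : ℕ) := by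
  have h1 : ∀ w ∈ Cx p B' x, w ∈ Submodule.span B (Set.range (mW p B' x)) := by
    intro w hw
    refine Algebra.adjoin_induction (p := fun w _ => w ∈ Submodule.span B (Set.range (mW p B' x))) ?_ ?_ ?_ ?_ hw
    · rintro _ ⟨i, rfl⟩
      refine Submodule.subset_span ⟨Pi.single i 1, ?_⟩
      unfold mW
      congr 1
      rw [Finset.prod_eq_single i]
      · simp
      · intro j _ hj
        rw [Pi.single_eq_of_ne hj, pow_zero]
      · intro h
        exact absurd (Finset.mem_univ _) h
    · intro b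
      have e : algebraMap B (Wt p B') b = b • mW p B' x 0 := by
        rw [Algebra.smul_def]
        unfold mW
        simp
      rw [e]
      exact Submodule.smul_mem _ _ (Submodule.subset_span ⟨0, rfl⟩)
    · intro a b _ _ ha hb
      exact add_mem ha hb
    · intro a b _ _ ha hb
      have h2 := Submodule.mul_mem_mul ha hb
      rw [Submodule.span_mul_span] at h2
      refine Submodule.span_mono ?_ h2
      rintro _ ⟨_, ⟨m, rfl⟩, _, ⟨m', rfl⟩, rfl⟩
      exact ⟨m + m', (mW_add x m m').symm⟩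
  have h2 : Submodule.span B (Set.range (mW p B' x)) ≤
      Submodule.span B (Set.range fun β : Fin n → Fin p => mW p B' x fun i => (β i : ℕ)) := by
    rw [Submodule.span_le]
    rintro _ ⟨m, rfl⟩
    rw [mW_red]
    refine Submodule.smul_mem _ _ (Submodule.subset_span ⟨fun i => ⟨m i % p, Nat.mod_lt _ hp.out.pos⟩, rfl⟩)
  obtain ⟨s, hs⟩ := (Submodule.mem_span_range_iff_exists_fun B).mp (h2 (h1 c.1 c.2))
  refine ⟨s, Subtype.ext ?_⟩
  rw [← hs]
  rw [AddSubmonoidClass.coe_finsetSum]
  refine Finset.sum_congr rfl fun β _ => ?_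
  rw [SetLike.val_smul, mo_val]
  rfl

/-- the structure map of the tensor product -/
noncomputable def ph {n : ℕ} (x : Fin n → B) : (Cx p B' x) ⊗[B] B' →ₐ[B] Wt p B' :=
  Algebra.TensorProduct.productMap (Cx p B' x).val (frA (B := B))

theorem ph_tmul {n : ℕ} (x : Fin n → B) (c : Cx p B' x) (y : B') :
    ph x (c ⊗ₜ[B] y) = (c : Wt p B') * toW p B' (y ^ p) := by
  unfold ph
  rw [Algebra.TensorProduct.productMap_apply_tmul]
  rfl

/-- elements of the tensor product -/
noncomputable def tt {n : ℕ} (x : Fin n → B) (b : (Fin n → Fin p) → B') : (Cx p B' x) ⊗[B] B' :=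
  ∑ β, (mo x fun i => (β i : ℕ)) ⊗ₜ[B] b β

theorem tt_surj {n : ℕ} (x : Fin n → B) (z : (Cx p B' x) ⊗[B] B') : ∃ b, z = tt x b := by
  induction z using TensorProduct.induction_on with
  | zero => exact ⟨0, by simp [tt]⟩
  | tmul c y =>
    obtain ⟨s, hs⟩ := Cx_gen x c
    refine ⟨fun β => s β • y, ?_⟩
    rw [hs, TensorProduct.sum_tmul]
    unfold tt
    exact Finset.sum_congr rfl fun β _ => TensorProduct.smul_tmul _ _ _
  | add a b ha hb =>
    obtain ⟨u, rfl⟩ := ha
    obtain ⟨v, rfl⟩ := hb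
    refine ⟨u + v, ?_⟩
    unfold tt
    rw [← Finset.sum_add_distrib]
    exact Finset.sum_congr rfl fun β _ => (TensorProduct.tmul_add _ _ _).symm

/-- remainder of the sum of exponents -/
def rr {n : ℕ} (p : ℕ) [hp : Fact p.Prime] (β γ : Fin n → Fin p) : Fin n → Fin p :=
  fun i => ⟨((β i : ℕ) + (γ i : ℕ)) % p, Nat.mod_lt _ hp.out.pos⟩

/-- quotient of the sum of exponents -/
def ee {n : ℕ} (p : ℕ) (β γ : Fin n → Fin p) : Fin n → ℕ := fun i => ((β i : ℕ) + (γ i : ℕ)) / p

theorem mon_split {R : Type} [CommRing R] {n : ℕ} (y : Fin n → R) (β γ : Fin n → Fin p) :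
    (∏ i, y i ^ (rr p β γ i : ℕ)) * (∏ i, y i ^ ee p β γ i) ^ p =
      (∏ i, y i ^ (β i : ℕ)) * ∏ i, y i ^ (γ i : ℕ) := by
  rw [← Finset.prod_pow, ← Finset.prod_mul_distrib, ← Finset.prod_mul_distrib]
  refine Finset.prod_congr rfl fun i _ => ?_
  rw [← pow_mul, ← pow_add, ← pow_add]
  congr 1
  show ((β i : ℕ) + (γ i : ℕ)) % p + ((β i : ℕ) + (γ i : ℕ)) / p * p = _
  rw [mul_comm _ p, Nat.mod_add_div]

theorem ph_tt {n : ℕ} (x : Fin n → B) (b : (Fin n → Fin p) → B') :
    ph x (tt x b) = toW p B' (∑ β, (∏ i, algebraMap B B' (x i) ^ (β i : ℕ)) * b β ^ p) := by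
  unfold tt
  rw [map_sum, map_sum]
  refine Finset.sum_congr rfl fun β _ => ?_
  rw [ph_tmul, mo_val, ← map_mul]

end

/-- the main computation: the kernel is zero -/
theorem ker_zero (hF : FRA) {p : ℕ} [hp : Fact p.Prime] {K B B' : Type} [Field K] [CharP K p] [PerfectRing K p]
    [CommRing B] [CommRing B'] [CharP B' p] [Algebra B B'] {n r : ℕ} (π : Rn n K →+* B') (h : Fin r → Rn n K)
    (H : Fin r → (Fin n → Fin p) → Rn n K) (x : Fin n → B) (hπ : Function.Surjective π)
    (hk : RingHom.ker π = Ideal.span (Set.range h)) (hx : ∀ i, π (X i) = algebraMap B B' (x i))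
    (hh : ∀ j, h j = ∑ β, (∏ i, X i ^ (β i : ℕ)) * H j β ^ p)
    (bb : Fin r → (Fin n → Fin p) → B) (hb : ∀ j β, π (H j β) = algebraMap B B' (bb j β))
    (b : (Fin n → Fin p) → B') (h0 : ph x (tt x b) = 0) : tt x b = 0 := by
  classical
  have hchar : CharP (Rn n K) p := charP_of_injective_algebraMap (FaithfulSMul.algebraMap_injective K (Rn n K)) p
  choose Bf hBf using fun β => hπ (b β)
  have hprod : ∀ m : Fin n → ℕ, π (∏ i, X i ^ m i) = ∏ i, algebraMap B B' (x i) ^ m i := by
    intro m
    rw [map_prod]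
    exact Finset.prod_congr rfl fun i _ => by rw [map_pow, hx]
  have h1 : (∑ β, (∏ i, (X i : Rn n K) ^ (β i : ℕ)) * Bf β ^ p) ∈ RingHom.ker π := by
    rw [RingHom.mem_ker, map_sum]
    have h2 : (∑ β, (∏ i, algebraMap B B' (x i) ^ (β i : ℕ)) * b β ^ p : B') = 0 := by
      rw [ph_tt] at h0
      exact (toW p B').injective (by rw [h0, map_zero])
    rw [← h2]
    refine Finset.sum_congr rfl fun β _ => ?_
    rw [map_mul, map_pow, hBf, hprod fun i => (β i : ℕ)]
  rw [hk, Ideal.mem_span_range_iff_exists_fun] at h1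
  obtain ⟨c, hc⟩ := h1
  obtain ⟨hex, huniq⟩ := hF p K n
  choose cc hcc using fun j => hex (c j)
  have hBf2 : Bf = fun α => ∑ j, ∑ β, ∑ γ, if rr p β γ = α then (∏ i, X i ^ ee p β γ i) * (H j β * cc j γ) else 0 := by
    apply huniq
    rw [← hc]
    have e1 : ∀ α : Fin n → Fin p, (∏ i, (X i : Rn n K) ^ (α i : ℕ)) *
        (∑ j, ∑ β, ∑ γ, if rr p β γ = α then (∏ i, X i ^ ee p β γ i) * (H j β * cc j γ) else 0) ^ p =
        ∑ j, ∑ β, ∑ γ, if rr p β γ = α then (∏ i, (X i : Rn n K) ^ (rr p β γ i : ℕ)) *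
          ((∏ i, X i ^ ee p β γ i) ^ p * (H j β ^ p * cc j γ ^ p)) else 0 := by
      intro α
      rw [← frobenius_def, map_sum, Finset.mul_sum]
      refine Finset.sum_congr rfl fun j _ => ?_
      rw [map_sum, Finset.mul_sum]
      refine Finset.sum_congr rfl fun β _ => ?_
      rw [map_sum, Finset.mul_sum]
      refine Finset.sum_congr rfl fun γ _ => ?_
      split_ifs with hr
      · rw [hr, frobenius_def, mul_pow, mul_pow]
      · rw [map_zero, mul_zero]
    rw [Finset.sum_congr rfl fun α _ => e1 α, Finset.sum_comm]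
    refine Finset.sum_congr rfl fun j _ => ?_
    rw [Finset.sum_comm]
    have e2 : ∀ β : Fin n → Fin p, (∑ α : Fin n → Fin p, ∑ γ : Fin n → Fin p, if rr p β γ = α then
        (∏ i, (X i : Rn n K) ^ (rr p β γ i : ℕ)) * ((∏ i, X i ^ ee p β γ i) ^ p * (H j β ^ p * cc j γ ^ p)) else 0) =
        ((∏ i, (X i : Rn n K) ^ (β i : ℕ)) * H j β ^ p) * c j := by
      intro β
      rw [Finset.sum_comm]
      conv_rhs => rw [hcc j, Finset.mul_sum]
      refine Finset.sum_congr rfl fun γ _ => ?_
      rw [Finset.sum_ite_eq, if_pos (Finset.mem_univ _), ← mul_assoc, mon_split]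
      ring
    rw [Finset.sum_congr rfl fun β _ => e2 β, ← Finset.sum_mul, ← hh j, mul_comm]
  have hb2 : ∀ α, b α = ∑ j, ∑ β, ∑ γ, if rr p β γ = α then
      ((∏ i, x i ^ ee p β γ i) * bb j β) • π (cc j γ) else (0 : B') := by
    intro α
    rw [← hBf α, hBf2, map_sum]
    refine Finset.sum_congr rfl fun j _ => ?_
    rw [map_sum]
    refine Finset.sum_congr rfl fun β _ => ?_
    rw [map_sum]
    refine Finset.sum_congr rfl fun γ _ => ?_
    split_ifs with hr
    · rw [map_mul, map_mul, hprod, hb, Algebra.smul_def, map_mul, map_prod, mul_assoc]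
      congr 1
      exact Finset.prod_congr rfl fun i _ => by rw [map_pow]
    · rw [map_zero]
  have e3 : tt x b = ∑ j, ∑ γ, (∑ β, ((∏ i, x i ^ ee p β γ i) * bb j β) • (mo x fun i => (rr p β γ i : ℕ) : Cx p B' x))
      ⊗ₜ[B] π (cc j γ) := by
    unfold tt
    have e4 : ∀ α : Fin n → Fin p, ((mo x fun i => (α i : ℕ) : Cx p B' x) ⊗ₜ[B] b α : (Cx p B' x) ⊗[B] B') =
        ∑ j, ∑ β, ∑ γ, if rr p β γ = α then (((∏ i, x i ^ ee p β γ i) * bb j β) •
          (mo x fun i => (rr p β γ i : ℕ) : Cx p B' x)) ⊗ₜ[B] π (cc j γ) else 0 := by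
      intro α
      conv_lhs => rw [hb2 α]
      rw [TensorProduct.tmul_sum]
      refine Finset.sum_congr rfl fun j _ => ?_
      rw [TensorProduct.tmul_sum]
      refine Finset.sum_congr rfl fun β _ => ?_
      rw [TensorProduct.tmul_sum]
      refine Finset.sum_congr rfl fun γ _ => ?_
      split_ifs with hr
      · rw [TensorProduct.smul_tmul, hr]
      · rw [TensorProduct.tmul_zero]
    rw [Finset.sum_congr rfl fun α _ => e4 α, Finset.sum_comm]
    refine Finset.sum_congr rfl fun j _ => ?_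
    rw [Finset.sum_comm]
    have e5 : ∀ β : Fin n → Fin p, (∑ α : Fin n → Fin p, ∑ γ : Fin n → Fin p, if rr p β γ = α then
        (((∏ i, x i ^ ee p β γ i) * bb j β) • (mo x fun i => (rr p β γ i : ℕ) : Cx p B' x)) ⊗ₜ[B] π (cc j γ)
          else (0 : (Cx p B' x) ⊗[B] B')) =
        ∑ γ : Fin n → Fin p, (((∏ i, x i ^ ee p β γ i) * bb j β) • (mo x fun i => (rr p β γ i : ℕ) : Cx p B' x))
          ⊗ₜ[B] π (cc j γ) := by
      intro β
      rw [Finset.sum_comm]
      refine Finset.sum_congr rfl fun γ _ => ?_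
      rw [Finset.sum_ite_eq, if_pos (Finset.mem_univ _)]
    rw [Finset.sum_congr rfl fun β _ => e5 β, Finset.sum_comm]
    refine Finset.sum_congr rfl fun γ _ => ?_
    rw [TensorProduct.sum_tmul]
  have e6 : ∀ j γ, (∑ β, ((∏ i, x i ^ ee p β γ i) * bb j β) • (mo x fun i => (rr p β γ i : ℕ) : Cx p B' x)) = 0 := by
    intro j γ
    apply Subtype.ext
    rw [AddSubmonoidClass.coe_finsetSum]
    have e7 : ∀ β : Fin n → Fin p, ((((∏ i, x i ^ ee p β γ i) * bb j β) •
        (mo x fun i => (rr p β γ i : ℕ) : Cx p B' x) : Cx p B' x) : Wt p B') =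
        toW p B' (π ((∏ i, (X i : Rn n K) ^ (γ i : ℕ)) * ((∏ i, X i ^ (β i : ℕ)) * H j β ^ p))) := by
      intro β
      rw [SetLike.val_smul, mo_val, Algebra.smul_def, wt_map, ← map_mul]
      congr 1
      have e8 : (∏ i, (X i : Rn n K) ^ (γ i : ℕ)) * ((∏ i, X i ^ (β i : ℕ)) * H j β ^ p) =
          ((∏ i, X i ^ (rr p β γ i : ℕ)) * (∏ i, X i ^ ee p β γ i) ^ p) * H j β ^ p := by
        rw [mon_split]
        ring
      rw [e8, map_mul π, map_mul π, map_pow π, map_pow π, hprod, hprod, hb,
        map_mul (algebraMap B B'), map_prod (algebraMap B B'),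
        Finset.prod_congr rfl fun i _ => map_pow (algebraMap B B') (x i) (ee p β γ i)]
      ring
    rw [Finset.sum_congr rfl fun β _ => e7 β, ← map_sum, ← map_sum, ← Finset.mul_sum, ← hh j, map_mul]
    have h9 : π (h j) = 0 := by
      rw [← RingHom.mem_ker, hk]
      exact Ideal.subset_span ⟨j, rfl⟩
    rw [h9, mul_zero, map_zero]
    rfl
  rw [e3]
  refine Finset.sum_eq_zero fun j _ => Finset.sum_eq_zero fun γ _ => ?_
  rw [e6, TensorProduct.zero_tmul]

theorem t_DES (hF : FRA) : DES := by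
  intro p hp K B B' _ _ _ _ _ _ n r π h H x hπ hk hx hh hH
  choose bb hb using hH
  rcases subsingleton_or_nontrivial B' with hs | hn
  · refine ⟨B', inferInstance, inferInstance, inferInstance, ?_⟩
    have hs2 : Subsingleton (B' ⊗[B] B') := by
      refine ⟨fun a b => ?_⟩
      have key : ∀ z : B' ⊗[B] B', z = 0 := by
        intro z
        induction z using TensorProduct.induction_on with
        | zero => rfl
        | tmul c y => rw [Subsingleton.elim c 0, TensorProduct.zero_tmul]
        | add a b ha hb => rw [ha, hb, add_zero]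
      rw [key a, key b]
    exact ⟨{ toFun := fun _ => 0
             invFun := fun _ => 0
             left_inv := fun _ => Subsingleton.elim _ _
             right_inv := fun _ => Subsingleton.elim _ _
             map_mul' := fun _ _ => Subsingleton.elim _ _
             map_add' := fun _ _ => Subsingleton.elim _ _ }, fun _ => Subsingleton.elim _ _⟩
  · have hchar : CharP B' p := by
      have h1 : (p : B') = 0 := by
        have h2 : π ((p : Rn n K)) = 0 := by
          have h3 : (p : Rn n K) = 0 := by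
            have : (p : Rn n K) = algebraMap K (Rn n K) (p : K) := by rw [map_natCast]
            rw [this, CharP.cast_eq_zero, map_zero]
          rw [h3, map_zero]
        rw [← h2, map_natCast]
      obtain ⟨q, hq⟩ := CharP.exists B'
      have h2 : q ∣ p := (CharP.cast_eq_zero_iff B' q p).mp h1
      rcases (Nat.dvd_prime hp.out).mp h2 with h3 | h3
      · exact absurd h3 (CharP.char_ne_one B' q)
      · rwa [h3] at hq
    refine ⟨Cx p B' x, inferInstance, inferInstance, ?_, ?_⟩
    · refine Module.Finite.of_surjective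
        (Fintype.linearCombination B fun β : Fin n → Fin p => (mo x fun i => (β i : ℕ) : Cx p B' x)) ?_
      intro c
      obtain ⟨s, hs⟩ := Cx_gen x c
      exact ⟨s, by rw [Fintype.linearCombination_apply]; exact hs.symm⟩
    · have hinj : Function.Injective (ph x : (Cx p B' x) ⊗[B] B' →ₐ[B] Wt p B') := by
        rw [injective_iff_map_eq_zero]
        intro z hz
        obtain ⟨b, rfl⟩ := tt_surj x z
        exact ker_zero hF π h H x hπ hk hx hh bb hb b hz
      have hsur : Function.Surjective (ph x : (Cx p B' x) ⊗[B] B' →ₐ[B] Wt p B') := by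
        intro w
        obtain ⟨f, hf⟩ := hπ ((toW p B').symm w)
        obtain ⟨c, hc⟩ := (hF p K n).1 f
        refine ⟨tt x fun β => π (c β), ?_⟩
        rw [ph_tt]
        have e1 : (∑ β, (∏ i, algebraMap B B' (x i) ^ (β i : ℕ)) * π (c β) ^ p : B') = π f := by
          rw [hc, map_sum]
          refine Finset.sum_congr rfl fun β _ => ?_
          rw [map_mul, map_pow, map_prod]
          congr 1
          exact Finset.prod_congr rfl fun i _ => by rw [map_pow, hx]
        rw [e1, hf, RingEquiv.apply_symm_apply]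
      refine ⟨(RingEquiv.ofBijective (ph x : (Cx p B' x) ⊗[B] B' →ₐ[B] Wt p B') ⟨hinj, hsur⟩).trans (toW p B').symm, ?_⟩
      intro y
      show (toW p B').symm (ph x ((1 : Cx p B' x) ⊗ₜ[B] y)) = y ^ p
      rw [ph_tmul]
      show (toW p B').symm (1 * toW p B' (y ^ p)) = y ^ p
      rw [one_mul, RingEquiv.symm_apply_apply]

end Pool.Agent.T3h91.FD
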