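import Pool.Agent.T2h14.FD.Stm

/-!
Tasks FRA and FRB: power series as sums of monomials times `p`-th powers.
-/

set_option autoImplicit false

open MvPowerSeries IsLocalRing

namespace Pool.Agent.T3h91.FD

open Pool.Agent.T2h14.FD

/-- the power series with given coefficients -/
def mkS {n : ℕ} {k : Type} (f : (Fin n →₀ ℕ) → k) : Rn n k := f

theorem coeff_mkS {n : ℕ} {k : Type} [Field k] (f : (Fin n →₀ ℕ) → k) (α : Fin n →₀ ℕ) :
    coeff α (mkS f : Rn n k) = f α := rfl

/-- the quotients of the exponents -/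
noncomputable def gq {n : ℕ} (p : ℕ) (α : Fin n →₀ ℕ) : Fin n →₀ ℕ :=
  Finsupp.equivFunOnFinite.symm fun i => α i / p

theorem gq_apply {n : ℕ} (p : ℕ) (α : Fin n →₀ ℕ) (i : Fin n) : gq p α i = α i / p := rfl

/-- the remainders of the exponents -/
def br {n : ℕ} (p : ℕ) [hp : Fact p.Prime] (α : Fin n →₀ ℕ) : Fin n → Fin p :=
  fun i => ⟨α i % p, Nat.mod_lt _ hp.out.pos⟩

/-- remainders as exponents -/
noncomputable def bf {n p : ℕ} (β : Fin n → Fin p) : Fin n →₀ ℕ :=
  Finsupp.equivFunOnFinite.symm fun i => (β i : ℕ)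

theorem bf_apply {n p : ℕ} (β : Fin n → Fin p) (i : Fin n) : bf β i = (β i : ℕ) := rfl

theorem decomp {n : ℕ} (p : ℕ) [hp : Fact p.Prime] (α : Fin n →₀ ℕ) : bf (br p α) + p • gq p α = α := by
  ext i
  simp only [Finsupp.add_apply, Finsupp.smul_apply, smul_eq_mul, bf_apply, gq_apply, br]
  exact Nat.mod_add_div _ _

theorem gq_add {n : ℕ} (p : ℕ) [hp : Fact p.Prime] (β : Fin n → Fin p) (γ : Fin n →₀ ℕ) :
    gq p (bf β + p • γ) = γ := by
  ext i
  simp only [Finsupp.add_apply, Finsupp.smul_apply, smul_eq_mul, bf_apply, gq_apply]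
  rw [Nat.add_mul_div_left _ _ hp.out.pos, Nat.div_eq_of_lt (β i).2, zero_add]

theorem br_add {n : ℕ} (p : ℕ) [hp : Fact p.Prime] (β : Fin n → Fin p) (γ : Fin n →₀ ℕ) :
    br p (bf β + p • γ) = β := by
  funext i
  apply Fin.ext
  simp only [br, Finsupp.add_apply, Finsupp.smul_apply, smul_eq_mul, bf_apply]
  rw [Nat.add_mul_mod_self_left, Nat.mod_eq_of_lt (β i).2]

theorem prod_X_eq {n : ℕ} {k : Type} [Field k] {p : ℕ} (β : Fin n → Fin p) :
    (∏ i, (X i : Rn n k) ^ (β i : ℕ)) = monomial (bf β) 1 := by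
  rw [monomial_eq', map_one, one_mul, Finsupp.prod_fintype]
  · simp [bf_apply]
  · intro i
    simp

theorem coeff_pow_p {n p : ℕ} [hp : Fact p.Prime] {k : Type} [Field k] [CharP k p] (c : Rn n k) (α : Fin n →₀ ℕ) :
    coeff (p • α) (c ^ p) = coeff α c ^ p := by
  rw [← map_frobenius_expand p hp.out.ne_zero, coeff_map, coeff_expand_smul, frobenius_def]

theorem coeff_pow_p_of_not {n p : ℕ} [hp : Fact p.Prime] {k : Type} [Field k] [CharP k p] (c : Rn n k)
    (α : Fin n →₀ ℕ) (i : Fin n) (h : ¬ p ∣ α i) : coeff α (c ^ p) = 0 := by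
  rw [← map_frobenius_expand p hp.out.ne_zero, coeff_map, coeff_expand_of_not_dvd p hp.out.ne_zero c h, map_zero]

/-- the key formula for the coefficients -/
theorem coeff_sum {n p : ℕ} [hp : Fact p.Prime] {k : Type} [Field k] [CharP k p]
    (c : (Fin n → Fin p) → Rn n k) (α : Fin n →₀ ℕ) :
    coeff α (∑ β, (∏ i, (X i : Rn n k) ^ (β i : ℕ)) * c β ^ p) = coeff (gq p α) (c (br p α)) ^ p := by
  classical
  rw [map_sum, Finset.sum_eq_single (br p α)]
  · rw [prod_X_eq]
    conv_lhs => rw [← decomp p α]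
    rw [br_add, coeff_add_monomial_mul, one_mul, coeff_pow_p]
  · intro β _ hβ
    rw [prod_X_eq, coeff_monomial_mul]
    split_ifs with hle
    · rw [one_mul]
      obtain ⟨i, hi⟩ := Function.ne_iff.mp hβ
      refine coeff_pow_p_of_not (c β) _ i fun hdvd => hi ?_
      have h1 : (β i : ℕ) ≤ α i := hle i
      have h2 : (α - bf β) i = α i - (β i : ℕ) := rfl
      rw [h2] at hdvd
      apply Fin.ext
      have h3 : (β i : ℕ) ≡ α i [MOD p] := (Nat.modEq_iff_dvd' h1).mpr hdvd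
      have h4 : (β i : ℕ) % p = α i % p := h3
      rw [Nat.mod_eq_of_lt (β i).2] at h4
      exact h4
    · rfl
  · intro h
    exact absurd (Finset.mem_univ _) h

theorem t_FRA : FRA := by
  intro p hp K _ _ _ n
  refine ⟨fun f => ?_, fun c c' h => ?_⟩
  · refine ⟨fun β => mkS fun γ => (frobeniusEquiv K p).symm (coeff (bf β + p • γ) f), ?_⟩
    ext α
    rw [coeff_sum, coeff_mkS, decomp]
    exact (frobeniusEquiv K p).apply_symm_apply (coeff α f) |>.symm
  · funext β
    ext γ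
    have h1 := congrArg (coeff (bf β + p • γ)) h
    rw [coeff_sum, coeff_sum, gq_add, br_add] at h1
    exact frobenius_inj K p h1

theorem t_FRB : FRB := by
  intro p hp k _ _ n L hL g hg
  obtain ⟨_, s, hs, hspan⟩ := hL
  choose cc hcc using fun α => hspan (coeff α g) (hg α)
  refine ⟨s, fun b β => mkS fun γ => cc (bf β + p • γ) b, ?_⟩
  have e : (∑ β : Fin n → Fin p, ∑ b ∈ s, (C b : Rn n k) * (∏ i, (X i : Rn n k) ^ (β i : ℕ)) *
      (mkS fun γ => cc (bf β + p • γ) b : Rn n k) ^ p) =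
      ∑ b ∈ s, (C b : Rn n k) * ∑ β : Fin n → Fin p, (∏ i, (X i : Rn n k) ^ (β i : ℕ)) *
      (mkS fun γ => cc (bf β + p • γ) b : Rn n k) ^ p := by
    rw [Finset.sum_comm]
    refine Finset.sum_congr rfl fun b _ => ?_
    rw [Finset.mul_sum]
    refine Finset.sum_congr rfl fun β _ => ?_
    rw [mul_assoc]
  rw [e]
  ext α
  rw [map_sum, hcc α]
  refine Finset.sum_congr rfl fun b _ => ?_
  rw [coeff_C_mul, coeff_sum, coeff_mkS, decomp, mul_comm]

end Pool.Agent.T3h91.FD
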